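import Pool.Agent.Helper50.FE.P2

/-!
MP_0aa406_nt, Q1, in the digit form of `V_{F,d}`: the bound of Q1 with its exact constant for all but
finitely many finite fields with a given least odd prime factor `l` of the degree, uniformly in `l` up to
an arbitrary `ε`.
-/

set_option autoImplicit false

namespace Pool.Agent.Results.MP_0aa406_nt.AlmostEveryField

/-- For every `ε > 0` there is `N0` such that for all primes `p` and all `m ≥ 1` which are not a power of
two (`l` is the least odd prime divisor of `m`) with `p ^ m ≥ N0` (this excludes finitely many pairs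
`(p, m)`), all `n ≥ 1` divisible by `m` (in particular `n = m`) and all `d` coprime to `p ^ n - 1` which
are not a power of `p` modulo `p ^ m - 1`, there are `0 < a < p ^ n - 1` and `0 ≤ b < p ^ n - 1` with
`b ≡ - d a` modulo `p ^ n - 1` whose base-`p` digit sums add up to at most
`max (1 / 2 + ε) ((l + 1) / (2 l)) n (p - 1)`. -/
theorem result : ∀ ε : ℝ, 0 < ε → ∃ N0 : ℕ, ∀ p : ℕ, p.Prime →
    ∀ m l : ℕ, 0 < m → N0 ≤ p ^ m → l.Prime → l ≠ 2 → l ∣ m →
    (∀ q : ℕ, q.Prime → q ≠ 2 → q ∣ m → l ≤ q) →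
    ∀ n : ℕ, 0 < n → m ∣ n → ∀ d : ℕ,
      Nat.Coprime d (p ^ n - 1) → (∀ k : ℕ, ¬ d ≡ p ^ k [MOD p ^ m - 1]) →
      ∃ a b : ℕ, 0 < a ∧ a < p ^ n - 1 ∧ b < p ^ n - 1 ∧ (p ^ n - 1) ∣ d * a + b ∧
        (((Nat.digits p a).sum + (Nat.digits p b).sum : ℕ) : ℝ) ≤
          max (1 / 2 + ε) (((l : ℝ) + 1) / (2 * l)) * n * ((p : ℝ) - 1) :=
  fun ε hε => Pool.Agent.Helper50.FE.main_fe ε hε

end Pool.Agent.Results.MP_0aa406_nt.AlmostEveryField
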